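import Pool.Agent.Helper78.Tok.Goals

/-!
# Packet PARA (token machines): sizes of the arrays and degree
-/

namespace Pool.Agent.Helper72.Tok

open Pool.Agent.Helper65.LinSpace Pool.Agent.Helper28.Ram Finset
open Pool.Agent.Helper78.Tok

theorem gR_pos (n : ℕ) : 1 ≤ gR n := Nat.le_add_left _ _

theorem gR_le (n : ℕ) : gR n ≤ n + 1 := by
  unfold gR
  have h1 : Nat.sqrt (n / ll n) ≤ n / ll n := Nat.sqrt_le_self _
  have h2 : n / ll n ≤ n := Nat.div_le_self _ _
  omega

theorem lt_pR (n : ℕ) : (n + 2) ^ 4 < pR n := (nextPrime_spec (by positivity)).2.1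

theorem PARA : PARA_stmt := by
  intro n m hok hpar
  obtain ⟨hσ, hG, hb, ha⟩ := hpar
  have hg := gR_pos n
  have hgn := gR_le n
  have hp := lt_pR n
  have h2 : m.σ * m.b ≤ gR n := by
    rw [hb]
    exact Nat.mul_div_le _ _
  have h3 : m.b ≤ gR n := by
    rw [hb]
    exact Nat.div_le_self _ _
  have hwn : m.wn ≤ gR n := h2
  have hwc : m.wc ≤ gR n + gR n * gR n := by
    unfold Mach.wc
    omega
  have hp2 : 2 * ((n + 2) * (n + 2) * (n + 2)) ≤ (n + 2) ^ 4 := by
    have e : (n + 2) ^ 4 = (n + 2) * ((n + 2) * (n + 2) * (n + 2)) := by ring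
    rw [e]
    exact Nat.mul_le_mul_right _ (by omega)
  generalize hgg : gR n = g at *
  have hbig : g * (g * g + (g + g * g)) < 2 * ((n + 2) * (n + 2) * (n + 2)) := by
    have e1 : g * (g * g + (g + g * g)) = 2 * (g * g * g) + g * g := by ring
    have e2 : g * g ≤ (n + 1) * (n + 1) := Nat.mul_le_mul hgn hgn
    have e3 : g * g * g ≤ (n + 1) * (n + 1) * (n + 1) := Nat.mul_le_mul e2 hgn
    rw [e1]
    nlinarith
  have hsmall : n + 2 ≤ (n + 2) ^ 4 := by
    calc n + 2 = (n + 2) ^ 1 := by ring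
      _ ≤ (n + 2) ^ 4 := Nat.pow_le_pow_right (by omega) (by norm_num)
  refine ⟨⟨?_, ?_, ?_, ?_, ?_⟩, ?_⟩
  · unfold JT
    rw [hG, hgg]
    have h4 : g * m.wn ≤ g * g := Nat.mul_le_mul_left _ hwn
    nlinarith
  · unfold JT
    rw [hG, hgg]
    nlinarith
  · unfold JT
    rw [hgg]
    calc (g + 1) * m.σ ≤ (g + 1) * (8 * (g + 1)) := Nat.mul_le_mul_left _ (by omega)
      _ = _ := by ring
  · rw [hG]
    omega
  · have : 2 * (2 * 2 * 2) ≤ 2 * ((n + 2) * (n + 2) * (n + 2)) := by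
      apply Nat.mul_le_mul_left
      exact Nat.mul_le_mul (Nat.mul_le_mul (by omega) (by omega)) (by omega)
    omega
  · have h5 : m.b * m.nv m.G ≤ g * (g * g + (g + g * g)) := by
      unfold Mach.nv
      rw [hG]
      exact Nat.mul_le_mul h3 (Nat.add_le_add (Nat.mul_le_mul_left _ hwn) hwc)
    omega


end Pool.Agent.Helper72.Tok
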